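import Pool.Agent.G2G.Stmt

/-!
# `G₂/SU(2) = V₂(ℝ⁷)` carries a reversible homogeneous Finsler metric of positive flag curvature

The space `G₂/SU(2) = V₂(ℝ⁷)` is one of the five exceptional odd-dimensional compact homogeneous
spaces left undecided in the classification of reversible homogeneous Finsler spaces of positive flag
curvature.
-/

namespace Pool.Agent.Results.MP_fad9c4_gt.G2Reversible

open HFinG G2Sp

/-- `V₂(ℝ⁷)` is the `G₂`-orbit of the pair `base` of the first two basis vectors, it is covered by
`11`-dimensional local parametrizations, and it carries a reversible `G₂`-invariant Finsler metric of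
positive flag curvature. -/
theorem result :
    Stiefel 7 = {z | ∃ g ∈ G2, pair g base = z} ∧ Covered11 (Stiefel 7) ∧
    ∃ F, IsG2Rev F ∧ PosFlagOn R11 (Stiefel 7) F :=
  ⟨g2_orbit, g2_covered, g2_reversible⟩

end Pool.Agent.Results.MP_fad9c4_gt.G2Reversible
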