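import Pool.Agent.HX.Stmt

/-!
# `SU(4)/SU(2)S¹` carries no reversible homogeneous Finsler metric of positive flag curvature

The space `SU(4)/SU(2)_(1,2)S¹_(1,1,1,-3)` is one of the five exceptional odd-dimensional compact
homogeneous spaces left undecided in the classification of reversible homogeneous Finsler spaces of
positive flag curvature.  It is realised as the `SU(4)`-orbit `Space4` of the tensor
`w04 = e₂ ⊗ e₂ ⊗ e₂ ⊗ e₃` in `(ℂ⁴)^⊗4`.
-/

namespace Pool.Agent.Results.MP_fad9c4_gt.SU4Exclusion

open HFinG HX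

/-- `Space4` is the `SU(4)`-orbit of `w04`, with isotropy group
`Iso4 = {diag(B, z, z⁻³) : |z| = 1, B ∈ U(2), det B = z²} = SU(2)·{diag(z, z, z, z⁻³)}`; it is covered by
`11`-dimensional local parametrizations, and no reversible `SU(4)`-invariant Finsler metric on it has
positive flag curvature. -/
theorem result :
    Space4 = {t | ∃ g ∈ SU4, act4F g w04 = t} ∧ {g | g ∈ SU4 ∧ act4F g w04 = w04} = Iso4 ∧
    Covered E11 Space4 ∧ ∀ F, IsHomRev F → ¬ PosFlagOn E11 Space4 F :=
  ⟨space4_orbit, space4_iso, space4_covered, space4_not⟩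

end Pool.Agent.Results.MP_fad9c4_gt.SU4Exclusion
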