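import Pool.Agent.S3.Final

/-!
# `Sp(3)/Sp(1)S¹` carries no reversible homogeneous Finsler metric of positive flag curvature

The space `Sp(3)/{diag(z, z, q) : z ∈ U(1), q ∈ Sp(1)}` is one of the five exceptional odd-dimensional
compact homogeneous spaces left undecided in the classification of reversible homogeneous Finsler
spaces of positive flag curvature.  It is realised as the orbit `Space3` of the quaternionic matrix
`N3 = !![i, 1, 0; 0, 0, 0; 0, 0, 0]` under `T ↦ g T g*`, `g ∈ Sp(3)`.
-/

namespace Pool.Agent.Results.MP_fad9c4_gt.Sp3Exclusion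

open S3 HFinG HG HX

/-- `Space3` is the `Sp(3)`-orbit of `N3`, with isotropy group
`Iso3 = {diag(z, z, q) : z ∈ ℂ, q ∈ ℍ, |z| = |q| = 1}`; it is covered by `17`-dimensional local
parametrizations, and no reversible `Sp(3)`-invariant Finsler metric on it has positive flag
curvature. -/
theorem result :
    Space3 = {T | ∃ g ∈ Sp3, conj3 g N3 = T} ∧ {g | g ∈ Sp3 ∧ conj3 g N3 = N3} = Iso3 ∧
    Covered E17 Space3 ∧ ∀ F, IsHomRev3 F → ¬ PosFlagOn E17 Space3 F :=
  ⟨rfl, iso3, space3_covered, space3_not⟩

end Pool.Agent.Results.MP_fad9c4_gt.Sp3Exclusion
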