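import Pool.Agent.HFinG.Final

/-!
# Positively curved homogeneous Finsler metrics on the Stiefel manifolds `V₂(ℝᵐ)`, `m ≥ 4`

The Stiefel manifold `V₂(ℝᵐ) = SO(m)/SO(m-2)` of orthonormal 2-frames (the unit tangent bundle of
`S^(m-1)`; `S² × S³` for `m = 4`) carries, for every `m ≥ 4`, an `O(m)`-invariant (not necessarily
reversible) Finsler metric all of whose flag curvatures are positive.
-/

namespace Pool.Agent.Results.MP_fad9c4_gt.StiefelPositive

open HFinG

/-- For every `m ≥ 4` there is an `O(m)`-invariant Finsler metric `F` on the Stiefel manifold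
`V₂(ℝᵐ)` whose flag curvature, computed from the spray coefficients in any local parametrization,
is positive at every point, for every flagpole and every flag.  The last clause records that the
local parametrizations (over which the definitions quantify) cover `V₂(ℝᵐ)`. -/
theorem result (m : ℕ) (hm : 4 ≤ m) :
    ∃ F : EuclideanSpace ℝ (Fin m) × EuclideanSpace ℝ (Fin m) →
        EuclideanSpace ℝ (Fin m) × EuclideanSpace ℝ (Fin m) → ℝ,
      IsFinslerOn (EuclideanSpace ℝ (Fin (2 * m - 3))) (Stiefel m) F ∧ OInvariant m F ∧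
      PosFlagOn (EuclideanSpace ℝ (Fin (2 * m - 3))) (Stiefel m) F ∧
      ∀ z ∈ Stiefel m, ∃ (U : Set (EuclideanSpace ℝ (Fin (2 * m - 3))))
        (ψ : EuclideanSpace ℝ (Fin (2 * m - 3)) →
          EuclideanSpace ℝ (Fin m) × EuclideanSpace ℝ (Fin m)),
        IsParam (Stiefel m) U ψ ∧ z ∈ ψ '' U :=
  stiefel_positive m hm

end Pool.Agent.Results.MP_fad9c4_gt.StiefelPositive
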